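import Pool.Agent.J6H28.Nut.Odd

/-! Base cores. -/

set_option autoImplicit false

namespace Pool.Agent.J6H28.Nut

theorem n0 : HasCore 3 12 4 :=
  Chk.has (S := [
    [-1, 1, 1, 0, 0, 0, 0, 0, 0, 0, 0, 0],
    [1, -1, 0, 1, 0, 0, 0, 0, 0, 0, 0, 0],
    [1, 0, -1, 1, 0, 0, 0, 0, 0, 0, 0, 0],
    [0, 1, 1, 0, 1, 0, 0, 0, 0, 0, 0, 0],
    [0, 0, 0, 1, -1, 1, 0, 0, 0, 0, 0, 0],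
    [0, 0, 0, 0, 1, -1, 1, 0, 0, 0, 0, 0],
    [0, 0, 0, 0, 0, 1, -1, 1, 0, 0, 0, 0],
    [0, 0, 0, 0, 0, 0, 1, -1, 1, 0, 0, 0],
    [0, 0, 0, 0, 0, 0, 0, 1, 0, 1, 1, 0],
    [0, 0, 0, 0, 0, 0, 0, 0, 1, -1, 0, 1],
    [0, 0, 0, 0, 0, 0, 0, 0, 1, 0, -1, 1],
    [0, 0, 0, 0, 0, 0, 0, 0, 0, 1, 1, -1]])
    (L := [
    [1, 1, 1, 0, 0, 0, 0, 0, 0, 0, 0, 0],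
    [0, 0, 0, 0, 0, 0, 0, 0, 0, 0, 0, 0],
    [0, 1, 1, 0, 0, 0, 0, 0, 0, 0, 0, 0],
    [1, 0, 1, 0, 0, 0, 0, 0, 0, 0, 0, 0],
    [0, 1, 1, 1, 0, 0, 0, 0, 0, 0, 0, 0],
    [1, 1, 0, 1, 1, 0, 0, 0, 0, 0, 0, 0],
    [1, 0, 1, 0, 1, 1, 0, 0, 0, 0, 0, 0],
    [0, 1, 1, 1, 0, 1, 1, 0, 0, 0, 0, 0],
    [1, 1, 0, 1, 1, 0, 1, 1, 0, 0, 0, 0],
    [1, 0, 1, 0, 1, 1, 0, 1, 1, 1, 0, 1],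
    [1, 1, 0, 1, 1, 0, 1, 1, 0, 1, 0, 1],
    [0, 1, 1, 1, 0, 1, 1, 0, 1, 0, 0, 1]])
    (a := [-2, -1, -1, 1, 2, 1, -1, -2, -1, 1, 1, 2])
    (z := [0, 1, 1, 1, 0, 1, 1, 0, 1, 1, 1, 0])
    (x := [1, 0, 1, 0, 1, 1, 0, 1, 0, 1, 0, 0])
    (A := 1) (B := 11) (C := 9) (D := 7) (e := 3) (f := 4) (q := 1) (by decide +kernel)

theorem n2 : HasCore 3 11 4 :=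
  Chk.has (S := [
    [-1, 1, 1, 0, 0, 0, 0, 0, 0, 0, 0],
    [1, 0, 1, 1, 0, 0, 0, 0, 0, 0, 0],
    [1, 1, 0, 1, 0, 0, 0, 0, 0, 0, 0],
    [0, 1, 1, 0, 1, 0, 0, 0, 0, 0, 0],
    [0, 0, 0, 1, 0, -1, 1, 0, 0, 0, 0],
    [0, 0, 0, 0, -1, -1, 0, 1, 0, 0, 0],
    [0, 0, 0, 0, 1, 0, -1, 0, 1, 0, 0],
    [0, 0, 0, 0, 0, 1, 0, -1, 0, 1, 0],
    [0, 0, 0, 0, 0, 0, 1, 0, 0, 1, 1],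
    [0, 0, 0, 0, 0, 0, 0, 1, 1, 0, 1],
    [0, 0, 0, 0, 0, 0, 0, 0, 1, 1, -1]])
    (L := [
    [1, 1, 1, 0, 0, 0, 0, 0, 0, 0, 0],
    [0, 0, 0, 0, 0, 0, 0, 0, 0, 0, 0],
    [0, 1, 1, 0, 0, 0, 0, 0, 0, 0, 0],
    [1, 1, 0, 0, 0, 0, 0, 0, 0, 0, 0],
    [0, 1, 1, 1, 0, 0, 0, 0, 0, 0, 0],
    [0, 1, 1, 1, 0, 0, 1, 1, 1, 1, 0],
    [1, 0, 1, 1, 1, 0, 1, 1, 1, 1, 0],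
    [0, 0, 0, 0, 0, 1, 1, 1, 1, 1, 0],
    [1, 1, 0, 0, 1, 0, 0, 1, 1, 1, 0],
    [0, 1, 1, 1, 0, 1, 0, 1, 0, 0, 0],
    [1, 1, 0, 0, 1, 1, 1, 0, 0, 1, 0]])
    (a := [2, 1, 1, -3, -2, -2, 1, -4, 3, -2, 1])
    (z := [0, 1, 1, 1, 0, 0, 1, 0, 1, 0, 1])
    (x := [1, 0, 0, 1, 0, 0, 1, 0, 0, 1, 0])
    (A := 0) (B := 10) (C := 7) (D := 6) (e := 3) (f := 4) (q := 1) (by decide +kernel)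

theorem n1 : HasCore 3 16 7 :=
  Chk.has (S := [
    [-1, 1, 1, 0, 0, 0, 0, 0, 0, 0, 0, 0, 0, 0, 0, 0],
    [1, 0, 1, 1, 0, 0, 0, 0, 0, 0, 0, 0, 0, 0, 0, 0],
    [1, 1, 0, 0, 1, 0, 0, 0, 0, 0, 0, 0, 0, 0, 0, 0],
    [0, 1, 0, -1, 0, 1, 0, 0, 0, 0, 0, 0, 0, 0, 0, 0],
    [0, 0, 1, 0, 0, -1, 1, 0, 0, 0, 0, 0, 0, 0, 0, 0],
    [0, 0, 0, 1, -1, -1, 0, 0, 0, 0, 0, 0, 0, 0, 0, 0],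
    [0, 0, 0, 0, 1, 0, -1, 1, 0, 0, 0, 0, 0, 0, 0, 0],
    [0, 0, 0, 0, 0, 0, 1, -1, 1, 0, 0, 0, 0, 0, 0, 0],
    [0, 0, 0, 0, 0, 0, 0, 1, 0, 1, 1, 0, 0, 0, 0, 0],
    [0, 0, 0, 0, 0, 0, 0, 0, 1, 0, 1, 1, 0, 0, 0, 0],
    [0, 0, 0, 0, 0, 0, 0, 0, 1, 1, 0, 1, 0, 0, 0, 0],
    [0, 0, 0, 0, 0, 0, 0, 0, 0, 1, 1, 0, 1, 0, 0, 0],
    [0, 0, 0, 0, 0, 0, 0, 0, 0, 0, 0, 1, 0, 1, 1, 0],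
    [0, 0, 0, 0, 0, 0, 0, 0, 0, 0, 0, 0, 1, 0, 1, 1],
    [0, 0, 0, 0, 0, 0, 0, 0, 0, 0, 0, 0, 1, 1, 0, 1],
    [0, 0, 0, 0, 0, 0, 0, 0, 0, 0, 0, 0, 0, 1, 1, -1]])
    (L := [
    [0, 0, 1, 1, 0, 1, 0, 0, 0, 0, 0, 0, 0, 0, 0, 0],
    [0, 0, 0, 0, 0, 0, 0, 0, 0, 0, 0, 0, 0, 0, 0, 0],
    [1, 0, 1, 1, 0, 1, 0, 0, 0, 0, 0, 0, 0, 0, 0, 0],
    [1, 1, 0, 0, 0, 0, 0, 0, 0, 0, 0, 0, 0, 0, 0, 0],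
    [0, 0, 0, 1, 0, 1, 0, 0, 0, 0, 0, 0, 0, 0, 0, 0],
    [1, 1, 0, 1, 0, 0, 0, 0, 0, 0, 0, 0, 0, 0, 0, 0],
    [0, 1, 1, 0, 1, 1, 0, 0, 0, 0, 0, 0, 0, 0, 0, 0],
    [0, 1, 1, 1, 1, 0, 1, 0, 0, 0, 0, 0, 0, 0, 0, 0],
    [0, 0, 0, 1, 0, 1, 1, 1, 0, 0, 0, 0, 0, 0, 0, 0],
    [0, 1, 1, 0, 1, 1, 0, 1, 1, 1, 0, 0, 1, 1, 1, 0],
    [0, 0, 0, 1, 0, 1, 1, 1, 0, 1, 0, 0, 1, 1, 1, 0],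
    [0, 0, 0, 0, 0, 0, 0, 0, 0, 0, 0, 0, 1, 1, 1, 0],
    [0, 1, 1, 1, 1, 0, 1, 0, 1, 0, 0, 1, 0, 0, 0, 0],
    [0, 1, 1, 1, 1, 0, 1, 0, 1, 0, 0, 1, 0, 1, 0, 1],
    [0, 1, 1, 1, 1, 0, 1, 0, 1, 0, 0, 1, 0, 0, 1, 1],
    [0, 0, 0, 0, 0, 0, 0, 0, 0, 0, 0, 0, 0, 1, 1, 1]])
    (a := [2, -1, 3, -5, -1, -4, -7, -6, 1, 3, 3, -4, -6, 2, 2, 4])
    (z := [0, 1, 1, 1, 1, 0, 1, 0, 1, 1, 1, 0, 0, 0, 0, 0])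
    (x := [1, 1, 1, 0, 0, 0, 0, 0, 0, 0, 0, 0, 0, 1, 1, 1])
    (A := 0) (B := 15) (C := 4) (D := 3) (e := 6) (f := 7) (q := 1) (by decide +kernel)

theorem p1 : HasCore 5 13 8 :=
  Chk.has (S := [
    [-1, 1, 1, 0, 0, 0, 0, 0, 0, 0, 0, 1, -1],
    [1, 0, 0, 1, 0, 0, 0, 0, 0, 0, 0, 0, 1],
    [1, 0, -1, 1, 0, 0, 0, 0, 0, 0, 0, 0, 0],
    [0, 1, 1, -1, 0, 0, 0, 0, 0, 0, 0, 0, 0],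
    [0, 0, 0, 0, -1, 1, 1, 0, 0, 0, 0, 0, 0],
    [0, 0, 0, 0, 1, 0, 1, 1, 0, 0, 0, 0, 0],
    [0, 0, 0, 0, 1, 1, 0, 1, 0, 0, 0, 0, 0],
    [0, 0, 0, 0, 0, 1, 1, 0, 1, 0, 0, 0, 0],
    [0, 0, 0, 0, 0, 0, 0, 1, -1, 1, 0, 0, 0],
    [0, 0, 0, 0, 0, 0, 0, 0, 1, -1, 1, 0, 0],
    [0, 0, 0, 0, 0, 0, 0, 0, 0, 1, -1, 1, 0],
    [1, 0, 0, 0, 0, 0, 0, 0, 0, 0, 1, -1, 0],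
    [-1, 1, 0, 0, 0, 0, 0, 0, 0, 0, 0, 0, -1]])
    (L := [
    [0, 0, 0, 0, 0, 0, 0, 0, 0, 0, 0, 0, 0],
    [0, 0, 1, 1, 0, 0, 0, 0, 0, 0, 0, 0, 0],
    [0, 1, 0, 1, 0, 0, 0, 0, 0, 0, 0, 0, 1],
    [0, 1, 1, 1, 0, 0, 0, 0, 0, 0, 0, 0, 1],
    [0, 0, 0, 0, 1, 1, 1, 0, 0, 0, 0, 0, 0],
    [1, 1, 0, 1, 1, 1, 0, 0, 1, 1, 0, 1, 0],
    [1, 1, 0, 1, 1, 0, 1, 0, 1, 1, 0, 1, 0],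
    [1, 1, 0, 1, 0, 0, 0, 0, 1, 1, 0, 1, 0],
    [0, 0, 0, 0, 0, 1, 1, 1, 0, 0, 0, 0, 0],
    [1, 1, 0, 1, 0, 1, 1, 1, 0, 1, 0, 1, 0],
    [1, 1, 0, 1, 0, 0, 0, 0, 0, 0, 0, 1, 0],
    [1, 1, 0, 1, 0, 0, 0, 0, 0, 0, 0, 0, 0],
    [0, 0, 1, 1, 0, 0, 0, 0, 0, 0, 0, 0, 1]])
    (a := [-1, 1, -2, -1, 2, 1, 1, -3, -2, 1, 3, 2, 2])
    (z := [1, 1, 0, 1, 0, 1, 1, 1, 0, 1, 1, 0, 0])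
    (x := [1, 0, 0, 0, 0, 0, 0, 0, 0, 0, 0, 1, 0])
    (A := 1) (B := 2) (C := 10) (D := 12) (e := 7) (f := 8) (q := 0) (by decide +kernel)

theorem p2 : HasCore 5 14 3 :=
  Chk.has (S := [
    [-1, -1, 1, 0, 0, 0, 0, 0, 0, 0, 0, 0, 1, 1],
    [-1, 0, 1, 0, 0, 0, 0, 0, 0, 0, 0, 0, 0, 1],
    [1, 1, 0, 1, 0, 0, 0, 0, 0, 0, 0, 0, 0, 0],
    [0, 0, 1, 0, -1, 1, 0, 0, 0, 0, 0, 0, 0, 0],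
    [0, 0, 0, -1, -1, 0, 1, 0, 0, 0, 0, 0, 0, 0],
    [0, 0, 0, 1, 0, 0, 1, 1, 0, 0, 0, 0, 0, 0],
    [0, 0, 0, 0, 1, 1, -1, 0, 0, 0, 0, 0, 0, 0],
    [0, 0, 0, 0, 0, 1, 0, -1, 1, 0, 0, 0, 0, 0],
    [0, 0, 0, 0, 0, 0, 0, 1, 0, 1, 1, 0, 0, 0],
    [0, 0, 0, 0, 0, 0, 0, 0, 1, -1, 0, 1, 0, 0],
    [0, 0, 0, 0, 0, 0, 0, 0, 1, 0, -1, 1, 0, 0],
    [0, 0, 0, 0, 0, 0, 0, 0, 0, 1, 1, -1, 0, 0],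
    [1, 0, 0, 0, 0, 0, 0, 0, 0, 0, 0, 0, -1, 1],
    [1, 1, 0, 0, 0, 0, 0, 0, 0, 0, 0, 0, 1, 0]])
    (L := [
    [1, 0, 1, 1, 0, 1, 1, 0, 1, 1, 1, 0, 1, 0],
    [0, 0, 0, 0, 0, 0, 0, 0, 0, 0, 0, 0, 0, 0],
    [1, 0, 0, 0, 0, 0, 0, 0, 0, 0, 0, 0, 1, 0],
    [1, 0, 0, 1, 0, 1, 1, 0, 1, 1, 1, 0, 1, 0],
    [0, 0, 0, 0, 1, 1, 0, 0, 1, 1, 1, 0, 0, 0],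
    [1, 0, 0, 1, 1, 1, 0, 0, 1, 1, 1, 0, 1, 0],
    [1, 0, 0, 1, 0, 0, 1, 0, 0, 0, 0, 0, 1, 0],
    [0, 0, 0, 0, 0, 0, 0, 0, 1, 1, 1, 0, 0, 0],
    [1, 0, 0, 1, 1, 1, 0, 1, 0, 0, 0, 0, 1, 0],
    [1, 0, 0, 1, 1, 1, 0, 1, 0, 0, 1, 1, 1, 0],
    [1, 0, 0, 1, 1, 1, 0, 1, 0, 1, 0, 1, 1, 0],
    [0, 0, 0, 0, 0, 0, 0, 0, 0, 1, 1, 1, 0, 0],
    [1, 1, 0, 0, 0, 0, 0, 0, 0, 0, 0, 0, 0, 0],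
    [0, 1, 1, 1, 0, 1, 1, 0, 1, 1, 1, 0, 0, 0]])
    (a := [-2, 1, -5, 1, -4, 1, -3, 2, 1, -1, -1, -2, 1, 3])
    (z := [0, 1, 1, 1, 0, 1, 1, 0, 1, 1, 1, 0, 1, 1])
    (x := [0, 0, 0, 0, 1, 1, 0, 1, 1, 1, 0, 1, 0, 0])
    (A := 4) (B := 5) (C := 7) (D := 9) (e := 2) (f := 3) (q := 1) (by decide +kernel)

theorem p0 : HasCore 5 15 4 :=
  Chk.has (S := [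
    [-1, 1, 1, 0, 0, 0, 0, 0, 0, 0, 0, 0, 0, 1, 1],
    [1, -1, 0, 1, 0, 0, 0, 0, 0, 0, 0, 0, 0, 0, 0],
    [1, 0, -1, 1, 0, 0, 0, 0, 0, 0, 0, 0, 0, 0, 0],
    [0, 1, 1, 0, 1, 0, 0, 0, 0, 0, 0, 0, 0, 0, 0],
    [0, 0, 0, 1, -1, 1, 0, 0, 0, 0, 0, 0, 0, 0, 0],
    [0, 0, 0, 0, 1, -1, 0, 1, 0, 0, 0, 0, 0, 0, 0],
    [0, 0, 0, 0, 0, 0, -1, -1, 1, 0, 0, 0, 0, 0, 0],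
    [0, 0, 0, 0, 0, 1, -1, 0, 0, 1, 0, 0, 0, 0, 0],
    [0, 0, 0, 0, 0, 0, 1, 0, -1, 0, 1, 0, 0, 0, 0],
    [0, 0, 0, 0, 0, 0, 0, 1, 0, 0, 1, 1, 0, 0, 0],
    [0, 0, 0, 0, 0, 0, 0, 0, 1, 1, 0, 1, 0, 0, 0],
    [0, 0, 0, 0, 0, 0, 0, 0, 0, 1, 1, -1, 0, 0, 0],
    [0, 0, 0, 0, 0, 0, 0, 0, 0, 0, 0, 0, -1, 1, 1],
    [1, 0, 0, 0, 0, 0, 0, 0, 0, 0, 0, 0, 1, -1, 0],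
    [1, 0, 0, 0, 0, 0, 0, 0, 0, 0, 0, 0, 1, 0, -1]])
    (L := [
    [1, 1, 1, 0, 0, 0, 0, 0, 0, 0, 0, 0, 0, 1, 1],
    [0, 0, 0, 0, 0, 0, 0, 0, 0, 0, 0, 0, 0, 0, 0],
    [0, 1, 1, 0, 0, 0, 0, 0, 0, 0, 0, 0, 0, 0, 0],
    [1, 0, 1, 0, 0, 0, 0, 0, 0, 0, 0, 0, 0, 1, 1],
    [0, 1, 1, 1, 0, 0, 0, 0, 0, 0, 0, 0, 0, 0, 0],
    [1, 1, 0, 1, 1, 0, 0, 0, 0, 0, 0, 0, 0, 1, 1],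
    [0, 1, 1, 1, 0, 1, 0, 1, 0, 1, 0, 1, 0, 0, 0],
    [1, 0, 1, 0, 1, 1, 0, 0, 0, 0, 0, 0, 0, 1, 1],
    [1, 1, 0, 1, 1, 0, 1, 1, 0, 1, 0, 1, 0, 1, 1],
    [1, 0, 1, 0, 1, 1, 0, 0, 0, 1, 0, 1, 0, 1, 1],
    [1, 0, 1, 0, 1, 1, 1, 0, 1, 0, 0, 0, 0, 1, 1],
    [0, 0, 0, 0, 0, 0, 1, 0, 1, 1, 0, 0, 0, 0, 0],
    [0, 0, 0, 0, 0, 0, 0, 0, 0, 0, 0, 0, 1, 1, 1],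
    [1, 1, 1, 0, 0, 0, 0, 0, 0, 0, 0, 0, 1, 1, 0],
    [1, 1, 1, 0, 0, 0, 0, 0, 0, 0, 0, 0, 1, 0, 1]])
    (a := [-2, -3, -3, -1, 6, 7, 4, 1, 5, -3, 1, -2, 4, 2, 2])
    (z := [0, 1, 1, 1, 0, 1, 0, 1, 1, 1, 1, 0, 0, 0, 0])
    (x := [0, 1, 1, 0, 0, 0, 0, 0, 0, 0, 0, 0, 0, 1, 1])
    (A := 1) (B := 2) (C := 13) (D := 14) (e := 3) (f := 4) (q := 1) (by decide +kernel)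

end Pool.Agent.J6H28.Nut
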