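import Pool.Agent.J6H28.Nut.Core

/-!
# The bulk: circulant joins
-/

set_option autoImplicit false
set_option linter.unusedSectionVars false

namespace Pool.Agent.J6H28.Nut

open Finset

/-- `i` and `j` have circular distance `t` in `0, ..., m - 1` -/
def cdi (m t i j : ℕ) : Prop := j = i + t ∨ i = j + t ∨ j + m = i + t ∨ i + m = j + t

instance (m t i j : ℕ) : Decidable (cdi m t i j) := by
  unfold cdi; infer_instance

/-- the circular distance is in `[3, h + 2]` -/
def cir (m h i j : ℕ) : Prop :=
  (i + 3 ≤ j ∧ j ≤ i + h + 2) ∨ (j + 3 ≤ i ∧ i ≤ j + h + 2) ∨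
  (i + 3 ≤ j + m ∧ j + m ≤ i + h + 2) ∨ (j + 3 ≤ i + m ∧ i + m ≤ j + h + 2)

instance (m h i j : ℕ) : Decidable (cir m h i j) := by
  unfold cir; infer_instance

theorem card_cdi {m t i : ℕ} (hi : i < m) (ht : 0 < t) (h2 : 2 * t < m) :
    ((range m).filter (fun j => cdi m t i j)).card = 2 := by
  have h : (range m).filter (fun j => cdi m t i j) =
      {if i + t < m then i + t else i + t - m, if t ≤ i then i - t else i + m - t} := by
    ext j
    rw [mem_filter, mem_range, mem_insert, mem_singleton]
    unfold cdi
    split_ifs <;> omega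
  rw [h, card_pair]
  split_ifs <;> omega

theorem card_cir {m h i : ℕ} (hi : i < m) (h2 : 2 * (h + 2) < m) :
    ((range m).filter (fun j => cir m h i j)).card = 2 * h := by
  induction h with
  | zero =>
    rw [mul_zero, card_eq_zero, filter_eq_empty_iff]
    intro j hj
    rw [mem_range] at hj
    unfold cir
    omega
  | succ h ih =>
    have e : (range m).filter (fun j => cir m (h + 1) i j) =
        (range m).filter (fun j => cir m h i j) ∪
        (range m).filter (fun j => cdi m (h + 3) i j) := by
      ext j
      rw [mem_union, mem_filter, mem_filter, mem_filter, mem_range]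
      unfold cir cdi
      omega
    rw [e, card_union_of_disjoint, ih (by omega), card_cdi hi (by omega) (by omega)]
    · ring
    · rw [disjoint_left]
      intro j hj hj2
      rw [mem_filter, mem_range] at hj hj2
      unfold cir at hj
      unfold cdi at hj2
      omega

/-- an additional matching for odd `k`: antipodal positions if `m` is even, the pairs `i, i + q`,
`1 ≤ i ≤ q`, if `m = 2 q + 1` -/
def mat (m i j : ℕ) : Prop :=
  if m % 2 = 0 then (2 * i + m = 2 * j ∨ 2 * j + m = 2 * i) else
    (1 ≤ i ∧ 2 * j + 1 = 2 * i + m) ∨ (1 ≤ j ∧ 2 * i + 1 = 2 * j + m)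

instance (m i j : ℕ) : Decidable (mat m i j) := by
  unfold mat; infer_instance

theorem card_mat {m i : ℕ} (hi : i < m) (hm : 2 ≤ m) :
    ((range m).filter (fun j => mat m i j)).card = if m % 2 = 1 ∧ i = 0 then 0 else 1 := by
  by_cases h0 : m % 2 = 0
  · rw [if_neg (by omega), card_eq_one]
    refine ⟨if 2 * i < m then i + m / 2 else i - m / 2, ?_⟩
    ext j
    rw [mem_filter, mem_range, mem_singleton]
    unfold mat
    rw [if_pos h0]
    split_ifs <;> omega
  · by_cases hi0 : i = 0
    · rw [if_pos (by omega), card_eq_zero, filter_eq_empty_iff]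
      intro j hj
      rw [mem_range] at hj
      unfold mat
      rw [if_neg h0]
      omega
    · rw [if_neg (by omega), card_eq_one]
      refine ⟨if 2 * i < m then i + m / 2 else i - m / 2, ?_⟩
      ext j
      rw [mem_filter, mem_range, mem_singleton]
      unfold mat
      rw [if_neg h0]
      split_ifs <;> omega

/-- the bulk relation -/
def blk (m k i j : ℕ) : Prop := cir m (k / 2) i j ∨ (k % 2 = 1 ∧ mat m i j)

instance (m k i j : ℕ) : Decidable (blk m k i j) := by
  unfold blk; infer_instance

theorem card_blk {m k i : ℕ} (hi : i < m) (hk : k + 5 ≤ m) (hk2 : m % 2 = 1 → k % 2 = 1 → k + 6 ≤ m) :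
    ((range m).filter (fun j => blk m k i j)).card =
      if m % 2 = 1 ∧ k % 2 = 1 ∧ i = 0 then k - 1 else k := by
  rcases Nat.mod_two_eq_zero_or_one k with h | h
  · rw [if_neg (by omega)]
    have e : (range m).filter (fun j => blk m k i j) = (range m).filter (fun j => cir m (k / 2) i j) := by
      ext j
      simp [blk, h]
    rw [e, card_cir hi (by omega)]
    omega
  · have e : (range m).filter (fun j => blk m k i j) =
        (range m).filter (fun j => cir m (k / 2) i j) ∪ (range m).filter (fun j => mat m i j) := by
      ext j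
      simp only [blk, h, mem_filter, mem_union, true_and]
      tauto
    rw [e, card_union_of_disjoint, card_cir hi (by omega), card_mat hi (by omega)]
    · split_ifs <;> omega
    · rw [disjoint_left]
      intro j hj hj2
      rw [mem_filter, mem_range] at hj hj2
      unfold cir at hj
      unfold mat at hj2
      split_ifs at hj2 <;> omega

theorem blk_symm (m k i j : ℕ) : blk m k i j ↔ blk m k j i := by
  have h1 : cir m (k / 2) i j ↔ cir m (k / 2) j i := by
    unfold cir
    constructor <;> intro h <;> omega
  have h2 : mat m i j ↔ mat m j i := by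
    unfold mat
    split_ifs <;> constructor <;> intro h <;> omega
  unfold blk
  rw [h1, h2]

/-- positions at distance at most two are not joined -/
theorem not_blk {m k p i j : ℕ} (hi : i < m) (hj : j < m) (hk : k + 5 ≤ m)
    (hk2 : m % 2 = 1 → k % 2 = 1 → k + 6 ≤ m) (h8 : 8 ≤ m)
    (h : rel m p 0 2 i j) : ¬ blk m k i j := by
  unfold rel at h
  unfold blk cir mat
  split_ifs <;> omega

/-- positions at distance `3` or `4` are joined if `4 ≤ k` -/
theorem is_blk {m k p i j : ℕ} (hk : 4 ≤ k) (h : rel m p 3 4 i j) : blk m k i j := by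
  unfold rel at h
  left
  unfold cir
  omega

end Pool.Agent.J6H28.Nut
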