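import Pool.Agent.TH296.Nut.All
import Pool.Agent.TH417.Nut.Exact
import Pool.Agent.TH991.Nut.Orders

/-! # Comparison of the definitions used in the earlier files -/

set_option autoImplicit false

namespace Pool.Agent.J6H28.Nut

open Pool.Agent.TH296.Nut

theorem hasNut_of_mem {ρ n : ℕ} (h : n ∈ nutOrders ρ) : Pool.Agent.TH417.Nut.HasNut ρ n := by
  classical
  obtain ⟨V, _, G, hc, hr, h2, x, hx, hk⟩ := h
  refine ⟨V, inferInstance, inferInstance, G, inferInstance, hc, ?_, ?_, x, hx, ?_⟩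
  · intro v
    have := hr v
    convert this
  · exact h2
  · rw [← hk]
    rfl

theorem lower {ρ n : ℕ} (h0 : 1 ≤ ρ) (h : n ∈ nutOrders ρ) : ρ + 4 ≤ n :=
  Pool.Agent.TH417.Nut.lower ρ n h0 (hasNut_of_mem h)

open Classical in
theorem isNut_of {V : Type} [Fintype V] (G : SimpleGraph V)
    (h : Pool.Agent.TH903.Nut.IsNut G) : IsNut G := by
  obtain ⟨h2, x, hx, hk, hu⟩ := h
  refine ⟨h2, x, hx, ?_⟩
  have key : ∀ y : V → ℝ, y ∈ LinearMap.ker (Matrix.toLin' (G.adjMatrix ℝ)) ↔
      Pool.Agent.TH903.Nut.InKer G y := by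
    intro y
    rw [LinearMap.mem_ker]
    unfold Pool.Agent.TH903.Nut.InKer
    constructor
    · intro h v
      have := congrFun h v
      rw [Matrix.toLin'_apply, Matrix.mulVec, dotProduct] at this
      simp only [SimpleGraph.adjMatrix_apply, ite_mul, one_mul, zero_mul, Pi.zero_apply] at this
      convert this
    · intro h
      funext v
      rw [Matrix.toLin'_apply, Matrix.mulVec, dotProduct]
      simp only [SimpleGraph.adjMatrix_apply, ite_mul, one_mul, zero_mul, Pi.zero_apply]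
      convert h v
  ext y
  rw [key, Submodule.mem_span_singleton]
  constructor
  · intro h
    obtain ⟨c, hc⟩ := hu y h
    exact ⟨c, by funext v; rw [hc v]; rfl⟩
  · rintro ⟨c, rfl⟩
    rw [← key]
    exact Submodule.smul_mem _ _ ((key x).2 hk)

theorem mem_of_N {ρ n : ℕ} (h : n ∈ Pool.Agent.TH903.Nut.N ρ) : n ∈ nutOrders ρ := by
  classical
  obtain ⟨G, hn, hr⟩ := h
  refine ⟨Fin n, inferInstance, G, Fintype.card_fin n, ?_, isNut_of G hn⟩
  intro v
  have := hr v
  rw [← this, ← SimpleGraph.card_neighborFinset_eq_degree]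
  congr 1
  ext u
  simp

theorem mem_five {ρ : ℕ} (hρ : 10 ≤ ρ) : ρ + 5 ∈ nutOrders ρ :=
  mem_of_N (Pool.Agent.TH991.Nut.order_five hρ)

end Pool.Agent.J6H28.Nut
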