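import Pool.Agent.J6H28.Nut.Switch

/-!
# Cores and the insertion of three looped cells
-/

set_option autoImplicit false
set_option linter.unusedSectionVars false

namespace Pool.Agent.J6H28.Nut

open Finset

/-- the distance of the positions `i`, `j` is in `[lo, hi]`: linear distance if both are on the same
side of the cut `p`, wrap around distance otherwise -/
def rel (m p lo hi i j : ℕ) : Prop :=
  ((i < p ↔ j < p) ∧ ((i + lo ≤ j ∧ j ≤ i + hi) ∨ (j + lo ≤ i ∧ i ≤ j + hi))) ∨
  (i < p ∧ p ≤ j ∧ j + lo ≤ i + m ∧ i + m ≤ j + hi) ∨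
  (j < p ∧ p ≤ i ∧ i + lo ≤ j + m ∧ j + m ≤ i + hi)

instance (m p lo hi i j : ℕ) : Decidable (rel m p lo hi i j) := by
  unfold rel; infer_instance

/-- a core: a sparse signed graph on `m` cells with positions `0, ..., m - 1` -/
structure Core (c : ℤ) (m p : ℕ) (V : Type) [Fintype V] [DecidableEq V] (S : V → V → ℤ)
    (pos : V → ℕ) (a : V → ℤ) (z x0 : V → ZMod 2) (A B C D e f : V) : Prop where
  card : Fintype.card V = m
  inj : Function.Injective pos
  lt : ∀ v, pos v < m
  val : ∀ i j, S i j = 0 ∨ S i j = 1 ∨ S i j = -1
  symm : ∀ i j, S i j = S j i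
  diag : ∀ i, S i i ≠ 1
  row : ∀ i, ∑ j, S i j ^ 2 = if pos i = 0 then c else 3
  band : ∀ i j, S i j ≠ 0 → rel m p 0 2 (pos i) (pos j) ∨ (i = e ∧ j = f) ∨ (i = f ∧ j = e)
  pe : pos e + 1 = p
  pf : pos f = p
  Sef : S e f = 1
  hz : ∀ v : V → ZMod 2, (∀ i, ∑ j, (S i j : ZMod 2) * v j = 0) → v = 0 ∨ v = z
  anz : ∀ i, a i ≠ 0
  hSa : ∀ i, ∑ j, S i j * a j = 0
  aef : a e ≠ a f
  hx0 : ∀ i, ∑ j, (S i j : ZMod 2) * x0 j =
    ((ind A i + ind B i + ind C i + ind D i : ℤ) : ZMod 2)
  hx : x0 A + x0 B + x0 C + x0 D = 0
  zAD : z A + z D = 1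
  zBC : z B + z C = 1
  nAD : A ≠ D
  nBC : B ≠ C
  AB : rel m p 1 2 (pos A) (pos B)
  CD : rel m p 1 2 (pos C) (pos D)
  AC : rel m p 3 4 (pos A) (pos C)
  BD : rel m p 3 4 (pos B) (pos D)
  sAB : S A B = 0
  sCD : S C D = 0

section ins

variable {V : Type} [Fintype V] [DecidableEq V]

/-- subdivision of the edge `e f` by three looped cells -/
def ins (S : V → V → ℤ) (e f : V) : V ⊕ Fin 3 → V ⊕ Fin 3 → ℤ
  | .inl i, .inl j => if (i = e ∧ j = f) ∨ (i = f ∧ j = e) then 0 else S i j
  | .inl i, .inr t => if i = e ∧ t = 0 then 1 else if i = f ∧ t = 2 then -1 else 0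
  | .inr t, .inl i => if i = e ∧ t = 0 then 1 else if i = f ∧ t = 2 then -1 else 0
  | .inr s, .inr t => if s = t then -1 else if s = 1 ∨ t = 1 then 1 else 0

theorem row_inl {R : Type} [CommRing R] (S : V → V → ℤ) (hs : ∀ i j, S i j = S j i) (e f : V)
    (hef : e ≠ f) (h1 : S e f = 1) (g : V ⊕ Fin 3 → R) (i : V) :
    ∑ q, ((ins S e f (.inl i) q : ℤ) : R) * g q = ∑ j, (S i j : R) * g (.inl j) +
      (if i = e then g (.inr 0) - g (.inl f) else 0) +
      (if i = f then -g (.inr 2) - g (.inl e) else 0) := by
  rw [Fintype.sum_sum_type, Fin.sum_univ_three]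
  have h2 : ∀ j, ((ins S e f (.inl i) (.inl j) : ℤ) : R) * g (.inl j) =
      (S i j : R) * g (.inl j) + ((if j = f then (if i = e then - g (.inl f) else 0) else 0) +
        (if j = e then (if i = f then - g (.inl e) else 0) else 0)) := by
    intro j
    have h1' : S f e = 1 := by rw [hs]; exact h1
    simp only [ins]
    by_cases i1 : i = e
    · subst i1
      simp only [hef, true_and, false_and, or_false, if_true, if_false]
      by_cases j1 : j = f
      · subst j1
        simp [h1, hef.symm]
      · simp [j1]
    · by_cases i2 : i = f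
      · subst i2
        simp only [i1, true_and, false_and, false_or, if_true, if_false]
        by_cases j1 : j = e
        · subst j1
          simp [h1']
        · simp [j1]
      · simp [i1, i2]
  rw [Finset.sum_congr rfl fun j _ => h2 j, Finset.sum_add_distrib, Finset.sum_add_distrib]
  simp only [Finset.sum_ite_eq', Finset.mem_univ, if_true, ins]
  by_cases i1 : i = e
  · subst i1
    simp [hef]
    ring
  · by_cases i2 : i = f
    · subst i2
      simp [i1]
      ring
    · simp [i1, i2]

theorem row_inr0 {R : Type} [CommRing R] (S : V → V → ℤ) (e f : V)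
    (g : V ⊕ Fin 3 → R) :
    ∑ q, ((ins S e f (.inr 0) q : ℤ) : R) * g q = g (.inl e) - g (.inr 0) + g (.inr 1) := by
  rw [Fintype.sum_sum_type, Fin.sum_univ_three]
  simp [ins]
  ring

theorem row_inr1 {R : Type} [CommRing R] (S : V → V → ℤ) (e f : V)
    (g : V ⊕ Fin 3 → R) :
    ∑ q, ((ins S e f (.inr 1) q : ℤ) : R) * g q = g (.inr 0) - g (.inr 1) + g (.inr 2) := by
  rw [Fintype.sum_sum_type, Fin.sum_univ_three]
  simp [ins]
  ring

theorem row_inr2 {R : Type} [CommRing R] (S : V → V → ℤ) (e f : V)
    (g : V ⊕ Fin 3 → R) :
    ∑ q, ((ins S e f (.inr 2) q : ℤ) : R) * g q = g (.inr 1) - g (.inr 2) - g (.inl f) := by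
  rw [Fintype.sum_sum_type, Fin.sum_univ_three]
  simp [ins]
  ring

theorem ins_symm (S : V → V → ℤ) (hs : ∀ i j, S i j = S j i) (e f : V) (q r : V ⊕ Fin 3) :
    ins S e f q r = ins S e f r q := by
  rcases q with i | s <;> rcases r with j | t
  · simp only [ins]
    rw [hs i j]
    by_cases h : (i = e ∧ j = f) ∨ (i = f ∧ j = e)
    · rw [if_pos h, if_pos (by tauto)]
    · rw [if_neg h, if_neg (by tauto)]
  · simp only [ins]
  · simp only [ins]
  · fin_cases s <;> fin_cases t <;> simp [ins]

theorem ins_val (S : V → V → ℤ) (hv : ∀ i j, S i j = 0 ∨ S i j = 1 ∨ S i j = -1) (e f : V)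
    (q r : V ⊕ Fin 3) :
    ins S e f q r = 0 ∨ ins S e f q r = 1 ∨ ins S e f q r = -1 := by
  rcases q with i | s <;> rcases r with j | t <;> simp only [ins]
  · split_ifs
    · simp
    · exact hv i j
  · split_ifs <;> simp
  · split_ifs <;> simp
  · split_ifs <;> simp

theorem ins_sq (S : V → V → ℤ) (hs : ∀ i j, S i j = S j i) (e f : V)
    (hef : e ≠ f) (h1 : S e f = 1) (i : V) :
    ∑ q, ins S e f (.inl i) q ^ 2 = ∑ j, S i j ^ 2 := by
  rw [Fintype.sum_sum_type, Fin.sum_univ_three]
  have h2 : ∀ j, (ins S e f (.inl i) (.inl j)) ^ 2 =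
      S i j ^ 2 + ((if j = f then (if i = e then -1 else 0) else 0) +
        (if j = e then (if i = f then -1 else 0) else 0)) := by
    intro j
    have h1' : S f e = 1 := by rw [hs]; exact h1
    simp only [ins]
    by_cases i1 : i = e
    · subst i1
      simp only [hef, true_and, false_and, or_false, if_true, if_false]
      by_cases j1 : j = f
      · subst j1
        simp [h1, hef.symm]
      · simp [j1]
    · by_cases i2 : i = f
      · subst i2
        simp only [i1, true_and, false_and, false_or, if_true, if_false]
        by_cases j1 : j = e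
        · subst j1
          simp [h1']
        · simp [j1]
      · simp [i1, i2]
  rw [Finset.sum_congr rfl fun j _ => h2 j, Finset.sum_add_distrib, Finset.sum_add_distrib]
  simp only [Finset.sum_ite_eq', Finset.mem_univ, if_true, ins]
  by_cases i1 : i = e
  · subst i1
    simp [hef]
  · by_cases i2 : i = f
    · subst i2
      simp [i1]
    · simp [i1, i2]

/-- extension of a vector -/
def ext {R : Type} [CommRing R] (e f : V) (g : V → R) : V ⊕ Fin 3 → R
  | .inl i => g i
  | .inr t => if t = 0 then g f else if t = 1 then g f - g e else - g e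

theorem ext_row {R : Type} [CommRing R] (S : V → V → ℤ) (hs : ∀ i j, S i j = S j i) (e f : V)
    (hef : e ≠ f) (h1 : S e f = 1) (g : V → R) (q : V ⊕ Fin 3) :
    ∑ r, ((ins S e f q r : ℤ) : R) * ext e f g r =
      match q with | .inl i => ∑ j, (S i j : R) * g j | .inr _ => 0 := by
  rcases q with i | t
  · rw [row_inl S hs e f hef h1]
    simp [ext]
  · fin_cases t
    · simp only [Fin.zero_eta, Fin.isValue]
      rw [row_inr0]
      simp [ext]
    · simp only [Fin.mk_one, Fin.isValue]
      rw [row_inr1]
      simp [ext]
    · simp only [Fin.reduceFinMk, Fin.isValue]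
      rw [row_inr2 S e f]
      simp [ext]

theorem ind_inl (A : V) (i : V) : ind (Sum.inl A : V ⊕ Fin 3) (Sum.inl i) = ind A i := by
  simp [ind]

theorem ind_inr (A : V) (t : Fin 3) : ind (Sum.inl A : V ⊕ Fin 3) (Sum.inr t) = 0 := by
  simp [ind]

/-- new positions -/
def npos (p : ℕ) (pos : V → ℕ) : V ⊕ Fin 3 → ℕ
  | .inl v => if pos v < p then pos v else pos v + 3
  | .inr t => p + t

theorem rel_npos {m p lo hi : ℕ} {pos : V → ℕ} {i j : V} (h : rel m p lo hi (pos i) (pos j)) :
    rel (m + 3) p lo hi (npos p pos (.inl i)) (npos p pos (.inl j)) := by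
  unfold rel at *
  simp only [npos]
  split_ifs <;> omega

/-- Insertion of three looped cells. -/
theorem Core.step {c : ℤ} {m p : ℕ} {S : V → V → ℤ} {pos : V → ℕ} {a : V → ℤ}
    {z x0 : V → ZMod 2} {A B C D e f : V} (h : Core c m p V S pos a z x0 A B C D e f) :
    Core c (m + 3) p (V ⊕ Fin 3) (ins S e f) (npos p pos) (ext e f a) (ext e f z) (ext e f x0)
      (.inl A) (.inl B) (.inl C) (.inl D) (.inl e) (.inr 0) := by
  have hef : e ≠ f := by
    intro he
    have h1 := h.pe
    have h2 := h.pf
    rw [he] at h1
    omega
  have hpe := h.pe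
  have hpf := h.pf
  have h2' : ∀ x : ZMod 2, -x = x := fun x => ZMod.neg_eq_self_mod_two x
  refine ⟨?_, ?_, ?_, ins_val S h.val e f, ins_symm S h.symm e f, ?_, ?_, ?_, ?_, ?_, ?_, ?_, ?_,
    ?_, ?_, ?_, h.hx, h.zAD, h.zBC, ?_, ?_, rel_npos h.AB, rel_npos h.CD, rel_npos h.AC,
    rel_npos h.BD, ?_, ?_⟩
  · rw [Fintype.card_sum, h.card, Fintype.card_fin]
  · intro q r hqr
    rcases q with i | s <;> rcases r with j | t <;> simp only [npos] at hqr
    · congr 1
      apply h.inj
      split_ifs at hqr <;> omega
    · exfalso
      have := t.2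
      split_ifs at hqr <;> omega
    · exfalso
      have := s.2
      split_ifs at hqr <;> omega
    · congr 1
      ext
      omega
  · intro q
    rcases q with i | t <;> simp only [npos]
    · have := h.lt i
      split_ifs <;> omega
    · have h1 := t.2
      have h3 := h.lt f
      omega
  · intro q
    rcases q with i | t <;> simp only [ins]
    · split_ifs
      · norm_num
      · exact h.diag i
    · norm_num
  · intro q
    rcases q with i | t
    · rw [ins_sq S h.symm e f hef h.Sef, h.row i]
      have e1 : (npos p pos (.inl i) = 0) ↔ (pos i = 0) := by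
        simp only [npos]
        split_ifs with h5
        · rfl
        · constructor
          · intro h6
            exact absurd h6 not_false
          · intro h6
            omega
      simp only [e1]
    · rw [if_neg (by simp only [npos]; omega), Fintype.sum_sum_type, Fin.sum_univ_three]
      fin_cases t
      · have e1 : ∀ i, ins S e f (.inr 0) (.inl i) ^ 2 = if i = e then 1 else 0 := by
          intro i
          simp only [ins]
          by_cases i1 : i = e <;> simp [i1]
        simp only [Fin.zero_eta, Fin.isValue]
        rw [Finset.sum_congr rfl fun i _ => e1 i]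
        simp [ins]
      · have e1 : ∀ i, ins S e f (.inr 1) (.inl i) ^ 2 = 0 := by
          intro i
          simp [ins]
        simp only [Fin.mk_one, Fin.isValue]
        rw [Finset.sum_congr rfl fun i _ => e1 i]
        simp [ins]
      · have e1 : ∀ i, ins S e f (.inr 2) (.inl i) ^ 2 = if i = f then 1 else 0 := by
          intro i
          simp only [ins]
          by_cases i1 : i = f <;> simp [i1]
        simp only [Fin.reduceFinMk, Fin.isValue]
        rw [Finset.sum_congr rfl fun i _ => e1 i]
        simp [ins]
  · intro q r hqr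
    rcases q with i | s <;> rcases r with j | t
    · left
      simp only [ins] at hqr
      split_ifs at hqr with h1
      · exact absurd rfl hqr
      · rcases h.band i j hqr with h3 | h3
        · exact rel_npos h3
        · exact absurd h3 h1
    · simp only [ins] at hqr
      split_ifs at hqr with h1 h3
      · right; left
        exact ⟨by rw [h1.1], by rw [h1.2]⟩
      · left
        rw [h3.1, h3.2]
        unfold rel
        simp only [npos, hpf]
        rw [if_neg (by omega)]
        left
        constructor
        · constructor <;> intro h4 <;> omega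
        · right
          simp
      · exact absurd rfl hqr
    · simp only [ins] at hqr
      split_ifs at hqr with h1 h3
      · right; right
        exact ⟨by rw [h1.2], by rw [h1.1]⟩
      · left
        rw [h3.1, h3.2]
        unfold rel
        simp only [npos, hpf]
        rw [if_neg (by omega)]
        left
        constructor
        · constructor <;> intro h4 <;> omega
        · left
          simp
      · exact absurd rfl hqr
    · left
      unfold rel
      simp only [npos]
      left
      have h1 := s.2
      have h3 := t.2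
      constructor
      · constructor <;> intro h4 <;> omega
      · omega
  · simp only [npos]
    rw [if_pos (by omega)]
    exact hpe
  · simp [npos]
  · simp [ins]
  · intro v hv
    have r0 := hv (.inr 0)
    have r1 := hv (.inr 1)
    have r2 := hv (.inr 2)
    rw [row_inr0] at r0
    rw [row_inr1] at r1
    rw [row_inr2 S e f] at r2
    have e2 : (2 : ZMod 2) = 0 := by decide
    have q1 : v (.inr 0) = v (.inl f) := by
      linear_combination r1 + r2
    have q3 : v (.inr 1) = v (.inl f) - v (.inl e) := by
      linear_combination r0 + q1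
    have q2 : v (.inr 2) = - v (.inl e) := by
      linear_combination r1 - q1 + q3
    have k1 : ∀ i, ∑ j, (S i j : ZMod 2) * v (.inl j) = 0 := by
      intro i
      have := hv (.inl i)
      rw [row_inl S h.symm e f hef h.Sef, q1, q2] at this
      simpa using this
    rcases h.hz (fun j => v (.inl j)) k1 with h3 | h3
    · left
      have he := congrFun h3 e
      have hf := congrFun h3 f
      simp only [Pi.zero_apply] at he hf
      funext q
      rcases q with i | t
      · exact congrFun h3 i
      · fin_cases t
        · simp [q1, hf]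
        · simp [q3, he, hf]
        · simp [q2, he]
    · right
      have he := congrFun h3 e
      have hf := congrFun h3 f
      funext q
      rcases q with i | t
      · exact congrFun h3 i
      · fin_cases t
        · simp [q1, hf, ext]
        · simp [q3, he, hf, ext]
        · simp [q2, he, ext]
  · intro q
    rcases q with i | t
    · exact h.anz i
    · fin_cases t
      · simp [ext, h.anz f]
      · simp only [ext]
        have := h.aef
        simp [sub_eq_zero, this.symm]
      · simp [ext, h.anz e]
  · intro q
    have := ext_row (R := ℤ) S h.symm e f hef h.Sef a q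
    simp only [Int.cast_id] at this
    rw [this]
    rcases q with i | t
    · exact h.hSa i
    · rfl
  · simp only [ext, if_true]
    exact h.aef
  · intro q
    rw [ext_row S h.symm e f hef h.Sef x0 q]
    rcases q with i | t
    · simp only [ind_inl]
      exact h.hx0 i
    · simp only [ind_inr]
      simp
  · simpa using h.nAD
  · simpa using h.nBC
  · simp only [ins]
    rw [if_neg, h.sAB]
    rintro (⟨h1, h2⟩ | ⟨h1, h2⟩)
    · have := h.sAB
      rw [h1, h2, h.Sef] at this
      exact one_ne_zero this
    · have := h.sAB
      rw [h1, h2, h.symm, h.Sef] at this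
      exact one_ne_zero this
  · simp only [ins]
    rw [if_neg, h.sCD]
    rintro (⟨h1, h2⟩ | ⟨h1, h2⟩)
    · have := h.sCD
      rw [h1, h2, h.Sef] at this
      exact one_ne_zero this
    · have := h.sCD
      rw [h1, h2, h.symm, h.Sef] at this
      exact one_ne_zero this

end ins

end Pool.Agent.J6H28.Nut
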