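import Pool.Agent.J6H28.Nut.Bulk

/-!
# Cores give regular nut graphs of odd degree
-/

set_option autoImplicit false
set_option linter.unusedSectionVars false

namespace Pool.Agent.J6H28.Nut

open Finset Pool.Agent.TH296.Nut

variable {V : Type} [Fintype V] [DecidableEq V]

theorem card_pos {m : ℕ} (pos : V → ℕ) (hc : Fintype.card V = m) (hi : Function.Injective pos)
    (hl : ∀ v, pos v < m) (P : ℕ → Prop) [DecidablePred P] :
    (univ.filter (fun v => P (pos v))).card = ((range m).filter P).card := by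
  have himg : univ.image pos = range m := by
    apply eq_of_subset_of_card_le
    · intro x hx
      rw [mem_image] at hx
      obtain ⟨v, -, rfl⟩ := hx
      exact mem_range.2 (hl v)
    · rw [card_image_of_injective _ hi, card_range, card_univ, hc]
  rw [← himg, filter_image, card_image_of_injective _ hi]

theorem Core.mem {c : ℤ} {m p : ℕ} {S : V → V → ℤ} {pos : V → ℕ} {a : V → ℤ}
    {z x0 : V → ZMod 2} {A B C D e f : V} (h : Core c m p V S pos a z x0 A B C D e f)
    {k : ℕ} (hk4 : 4 ≤ k) (hk : k + 5 ≤ m) (hk2 : m % 2 = 1 → k % 2 = 1 → k + 6 ≤ m)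
    (h5 : m % 2 = 1 ∧ k % 2 = 1 → c = 5) (h3 : ¬ (m % 2 = 1 ∧ k % 2 = 1) → c = 3) :
    2 * m ∈ nutOrders (2 * k + 3) := by
  have hpe := h.pe
  have hpf := h.pf
  set K : V → V → ℤ := fun i j => if blk m k (pos i) (pos j) then 1 else 0 with hK
  have hn : ∀ i j, rel m p 0 2 (pos i) (pos j) → K i j = 0 := by
    intro i j hr
    simp only [hK]
    rw [if_neg (not_blk (h.lt i) (h.lt j) hk hk2 (by omega) hr)]
  have hks : ∀ i j, K i j = K j i := by
    intro i j
    simp only [hK]
    by_cases hb : blk m k (pos i) (pos j)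
    · rw [if_pos hb, if_pos ((blk_symm _ _ _ _).1 hb)]
    · rw [if_neg hb, if_neg (fun hb2 => hb ((blk_symm _ _ _ _).1 hb2))]
  have hef : K e f = 0 := by
    simp only [hK]
    rw [if_neg]
    unfold blk cir mat
    have := h.lt f
    split_ifs <;> omega
  have hP : PD V (2 * k + 3) S K := by
    refine ⟨h.val, h.symm, h.diag, ?_, hks, ?_, ?_, ?_⟩
    · intro i j
      simp only [hK]
      split_ifs <;> simp
    · intro i
      apply hn
      unfold rel
      left
      omega
    · intro i j hij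
      by_contra hS
      apply hij
      rcases h.band i j hS with hb | hb | hb
      · exact hn i j hb
      · rw [hb.1, hb.2]; exact hef
      · rw [hb.1, hb.2, hks]; exact hef
    · intro i
      have e1 : ∑ j, K i j = (((range m).filter (fun j => blk m k (pos i) j)).card : ℤ) := by
        rw [← card_pos pos h.card h.inj h.lt]
        simp only [hK]
        rw [Finset.sum_boole]
      rw [Finset.sum_add_distrib, ← Finset.mul_sum, h.row i, e1,
        card_blk (h.lt i) hk hk2]
      by_cases hodd : m % 2 = 1 ∧ k % 2 = 1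
      · rw [h5 hodd]
        by_cases hp0 : pos i = 0
        · rw [if_pos hp0, if_pos ⟨hodd.1, hodd.2, hp0⟩]
          push_cast [Nat.cast_sub (show 1 ≤ k by omega)]
          ring
        · rw [if_neg hp0, if_neg (by tauto)]
          push_cast
          ring
      · rw [h3 hodd, ite_self, if_neg (by tauto)]
        push_cast
        ring
  have hne : ∀ i j : V, ∀ lo hi, 1 ≤ lo → rel m p lo hi (pos i) (pos j) → i ≠ j := by
    intro i j lo hi hlo hr hij
    subst hij
    unfold rel at hr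
    omega
  have hr02 : ∀ i j, rel m p 1 2 i j → rel m p 0 2 i j := by
    intro i j hr
    unfold rel at *
    omega
  have := hP.exists_nut z h.hz a h.anz h.hSa A B C D
    (hne A B 1 2 le_rfl h.AB) (hne A C 3 4 (by omega) h.AC) h.nAD h.nBC
    (hne B D 3 4 (by omega) h.BD) (hne C D 1 2 le_rfl h.CD) h.zAD h.zBC x0 h.hx0 h.hx
    (by simp only [hK]; rw [if_pos (is_blk hk4 h.AC)])
    (by simp only [hK]; rw [if_pos (is_blk hk4 h.BD)])
    (hn _ _ (hr02 _ _ h.AB)) (hn _ _ (hr02 _ _ h.CD)) h.sAB h.sCD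
  rw [h.card] at this
  exact this

/-- existence of a core -/
def HasCore (c : ℤ) (m p : ℕ) : Prop :=
  ∃ (V : Type) (_ : Fintype V) (_ : DecidableEq V) (S : V → V → ℤ)
    (pos : V → ℕ) (a : V → ℤ) (z x0 : V → ZMod 2) (A B C D e f : V),
    Core c m p V S pos a z x0 A B C D e f

theorem HasCore.step {c : ℤ} {m p : ℕ} (h : HasCore c m p) : HasCore c (m + 3) p := by
  obtain ⟨V, _, _, S, pos, a, z, x0, A, B, C, D, e, f, h⟩ := h
  exact ⟨_, _, _, _, _, _, _, _, _, _, _, _, _, _, h.step⟩

theorem HasCore.steps {c : ℤ} {m p : ℕ} (h : HasCore c m p) (j : ℕ) : HasCore c (m + 3 * j) p := by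
  induction j with
  | zero => exact h
  | succ j ih => exact ih.step

theorem HasCore.mem {c : ℤ} {m p : ℕ} (h : HasCore c m p)
    {k : ℕ} (hk4 : 4 ≤ k) (hk : k + 5 ≤ m) (hk2 : m % 2 = 1 → k % 2 = 1 → k + 6 ≤ m)
    (h5 : m % 2 = 1 ∧ k % 2 = 1 → c = 5) (h3 : ¬ (m % 2 = 1 ∧ k % 2 = 1) → c = 3) :
    2 * m ∈ nutOrders (2 * k + 3) := by
  obtain ⟨V, _, _, S, pos, a, z, x0, A, B, C, D, e, f, h⟩ := h
  exact h.mem hk4 hk hk2 h5 h3

/-! ### certificates -/

/-- entry of a list of lists -/
def ent (rows : List (List ℤ)) (i j : ℕ) : ℤ := (rows.getD i []).getD j 0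

/-- all the conditions on a core on `Fin m`, in decidable form -/
def Chk (c : ℤ) (m p : ℕ) (S L : List (List ℤ)) (a z x : List ℤ) (A B C D e f q : Fin m) : Prop :=
  (∀ i j : Fin m, ent S i j = 0 ∨ ent S i j = 1 ∨ ent S i j = -1) ∧
  (∀ i j : Fin m, ent S i j = ent S j i) ∧
  (∀ i : Fin m, ent S i i ≠ 1) ∧
  (∀ i : Fin m, ∑ j : Fin m, ent S i j ^ 2 = if i.val = 0 then c else 3) ∧
  (∀ i j : Fin m, ent S i j ≠ 0 → rel m p 0 2 i j ∨ (i = e ∧ j = f) ∨ (i = f ∧ j = e)) ∧
  (e.val + 1 = p) ∧ (f.val = p) ∧ (ent S e f = 1) ∧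
  (∀ j k : Fin m, (∑ i : Fin m, ent L j i * ent S i k + (if j = k then 1 else 0) +
    z.getD j 0 * (if k = q then 1 else 0)) % 2 = 0) ∧
  (∀ i : Fin m, a.getD i 0 ≠ 0) ∧
  (∀ i : Fin m, ∑ j : Fin m, ent S i j * a.getD j 0 = 0) ∧
  (a.getD e 0 ≠ a.getD f 0) ∧
  (∀ i : Fin m, (∑ j : Fin m, ent S i j * x.getD j 0 +
    (ind A i + ind B i + ind C i + ind D i)) % 2 = 0) ∧
  ((x.getD A 0 + x.getD B 0 + x.getD C 0 + x.getD D 0) % 2 = 0) ∧
  ((z.getD A 0 + z.getD D 0) % 2 = 1) ∧
  ((z.getD B 0 + z.getD C 0) % 2 = 1) ∧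
  (A ≠ D) ∧ (B ≠ C) ∧
  (rel m p 1 2 A B) ∧ (rel m p 1 2 C D) ∧ (rel m p 3 4 A C) ∧ (rel m p 3 4 B D) ∧
  (ent S A B = 0) ∧ (ent S C D = 0)

instance (c : ℤ) (m p : ℕ) (S L : List (List ℤ)) (a z x : List ℤ) (A B C D e f q : Fin m) :
    Decidable (Chk c m p S L a z x A B C D e f q) := by
  unfold Chk ind; infer_instance

theorem cast0 (n : ℤ) (h : n % 2 = 0) : (n : ZMod 2) = 0 :=
  (ZMod.intCast_zmod_eq_zero_iff_dvd n 2).2 (Int.dvd_of_emod_eq_zero h)

theorem cast1 (n : ℤ) (h : n % 2 = 1) : (n : ZMod 2) = 1 := by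
  have h1 := cast0 (n - 1) (by omega)
  push_cast at h1
  exact sub_eq_zero.1 h1

theorem Chk.has {c : ℤ} {m p : ℕ} {S L : List (List ℤ)} {a z x : List ℤ}
    {A B C D e f q : Fin m} (h : Chk c m p S L a z x A B C D e f q) : HasCore c m p := by
  obtain ⟨c1, c2, c3, c4, c5, c6, c7, c8, c9, c10, c11, c12, c13, c14, c15, c16, c17, c18, c19,
    c20, c21, c22, c23, c24⟩ := h
  have e2 : (2 : ZMod 2) = 0 := by decide
  refine ⟨Fin m, inferInstance, inferInstance, fun i j => ent S i j, fun i => i.val,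
    fun i => a.getD i 0, fun i => ((z.getD i 0 : ℤ) : ZMod 2), fun i => ((x.getD i 0 : ℤ) : ZMod 2),
    A, B, C, D, e, f, ?_⟩
  refine ⟨Fintype.card_fin m, Fin.val_injective, fun v => v.2, c1, c2, c3, c4, c5, c6, c7, c8, ?_,
    c10, c11, c12, ?_, ?_, ?_, ?_, c17, c18, c19, c20, c21, c22, c23, c24⟩
  · intro v hv
    have key : ∀ j, v j = ((z.getD j 0 : ℤ) : ZMod 2) * v q := by
      intro j
      have h1 : ∀ k : Fin m, ((∑ i : Fin m, ent L j i * ent S i k + (if j = k then 1 else 0) +
          z.getD j 0 * (if k = q then 1 else 0) : ℤ) : ZMod 2) = 0 := fun k => cast0 _ (c9 j k)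
      have h2 : ∑ k : Fin m, ((∑ i : Fin m, ent L j i * ent S i k + (if j = k then 1 else 0) +
          z.getD j 0 * (if k = q then 1 else 0) : ℤ) : ZMod 2) * v k = 0 := by
        refine Finset.sum_eq_zero fun k _ => ?_
        rw [h1 k, zero_mul]
      have h3 : ∀ k : Fin m, ((∑ i : Fin m, ent L j i * ent S i k + (if j = k then 1 else 0) +
          z.getD j 0 * (if k = q then 1 else 0) : ℤ) : ZMod 2) * v k =
          ∑ i : Fin m, (ent L j i : ZMod 2) * ((ent S i k : ZMod 2) * v k) +
          (if j = k then v k else 0) + (if k = q then ((z.getD j 0 : ℤ) : ZMod 2) * v k else 0) := by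
        intro k
        push_cast
        rw [add_mul, add_mul, Finset.sum_mul]
        congr 1
        · congr 1
          · refine Finset.sum_congr rfl fun i _ => ?_
            ring
          · split_ifs <;> simp
        · split_ifs <;> simp
      rw [Finset.sum_congr rfl fun k _ => h3 k, Finset.sum_add_distrib, Finset.sum_add_distrib,
        Finset.sum_comm] at h2
      have h4 : ∑ i : Fin m, ∑ k : Fin m, (ent L j i : ZMod 2) * ((ent S i k : ZMod 2) * v k) = 0 := by
        refine Finset.sum_eq_zero fun i _ => ?_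
        rw [← Finset.mul_sum, hv i, mul_zero]
      rw [h4, Finset.sum_ite_eq, Finset.sum_ite_eq', if_pos (Finset.mem_univ _),
        if_pos (Finset.mem_univ _), zero_add] at h2
      linear_combination h2 - e2 * (((z.getD j 0 : ℤ) : ZMod 2) * v q)
    have hq : v q = 0 ∨ v q = 1 := by
      generalize v q = w
      revert w
      decide
    rcases hq with hq | hq
    · left
      funext j
      rw [key j, hq, mul_zero]
      rfl
    · right
      funext j
      rw [key j, hq, mul_one]
  · intro i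
    have := cast0 _ (c13 i)
    push_cast at this
    push_cast
    linear_combination this - e2 * ((ind A i : ZMod 2) + ind B i + ind C i + ind D i)
  · have := cast0 _ c14
    push_cast at this
    exact this
  · have := cast1 _ c15
    push_cast at this
    exact this
  · have := cast1 _ c16
    push_cast at this
    exact this

end Pool.Agent.J6H28.Nut
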