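import Pool.Agent.J6H28.Nut.Base
import Pool.Agent.J6H28.Nut.Small

/-! # All odd degrees -/

set_option autoImplicit false

namespace Pool.Agent.J6H28.Nut

open Finset Pool.Agent.TH296.Nut

theorem odd_mem {ρ n : ℕ} (ho : ρ % 2 = 1) (h11 : 11 ≤ ρ) (hn : n % 2 = 0) (h : ρ + 7 ≤ n) :
    n ∈ nutOrders ρ := by
  obtain ⟨m, rfl⟩ : ∃ m, n = 2 * m := ⟨n / 2, by omega⟩
  obtain ⟨k, rfl⟩ : ∃ k, ρ = 2 * k + 3 := ⟨(ρ - 3) / 2, by omega⟩
  by_cases hs : m % 2 = 1 ∧ k % 2 = 1
  · have h3 : m % 3 = 0 ∨ m % 3 = 1 ∨ m % 3 = 2 := by omega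
    rcases h3 with h3 | h3 | h3
    · obtain ⟨j, rfl⟩ : ∃ j, m = 15 + 3 * j := ⟨(m - 15) / 3, by omega⟩
      exact (p0.steps j).mem (by omega) (by omega) (by omega) (fun _ => rfl) (fun h => absurd hs h)
    · obtain ⟨j, rfl⟩ : ∃ j, m = 13 + 3 * j := ⟨(m - 13) / 3, by omega⟩
      exact (p1.steps j).mem (by omega) (by omega) (by omega) (fun _ => rfl) (fun h => absurd hs h)
    · by_cases h11 : m = 11
      · subst h11
        obtain rfl : k = 5 := by omega
        exact x22_13
      · obtain ⟨j, rfl⟩ : ∃ j, m = 14 + 3 * j := ⟨(m - 14) / 3, by omega⟩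
        exact (p2.steps j).mem (by omega) (by omega) (by omega) (fun _ => rfl)
          (fun h => absurd hs h)
  · have h3 : m % 3 = 0 ∨ m % 3 = 1 ∨ m % 3 = 2 := by omega
    rcases h3 with h3 | h3 | h3
    · by_cases h9 : m = 9
      · subst h9
        obtain rfl : k = 4 := by omega
        exact x18_11
      · obtain ⟨j, rfl⟩ : ∃ j, m = 12 + 3 * j := ⟨(m - 12) / 3, by omega⟩
        exact (n0.steps j).mem (by omega) (by omega) (by omega) (fun h => absurd h hs)
          (fun _ => rfl)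
    · by_cases h10 : m = 10
      · subst h10
        rcases (show k = 4 ∨ k = 5 by omega) with rfl | rfl
        · exact x20_11
        · exact x20_13
      · by_cases h13 : m = 13
        · subst h13
          rcases (show k = 4 ∨ k = 6 ∨ k = 8 by omega) with rfl | rfl | rfl
          · exact x26_11
          · exact x26_15
          · exact x26_19
        · obtain ⟨j, rfl⟩ : ∃ j, m = 16 + 3 * j := ⟨(m - 16) / 3, by omega⟩
          exact (n1.steps j).mem (by omega) (by omega) (by omega) (fun h => absurd h hs)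
            (fun _ => rfl)
    · obtain ⟨j, rfl⟩ : ∃ j, m = 11 + 3 * j := ⟨(m - 11) / 3, by omega⟩
      exact (n2.steps j).mem (by omega) (by omega) (by omega) (fun h => absurd h hs)
        (fun _ => rfl)

end Pool.Agent.J6H28.Nut
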