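import Pool.Agent.TH296.Nut.All
import Pool.Agent.TH417.Nut.Exact

/-!
# Regular nut graphs from signed graphs on pairs

The vertices are grouped in pairs.  A symmetric matrix `S` with entries `0, 1, -1` prescribes
matchings (parallel or crossed) between and inside the pairs, a `0/1` matrix `K` prescribes complete
joins between pairs.
-/

set_option autoImplicit false

namespace Pool.Agent.J6H28.Nut

open Finset Pool.Agent.TH296.Nut

/-- the sparse part `S` and the bulk part `K` of a regular graph on pairs -/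
structure PD (V : Type) [Fintype V] (ρ : ℕ) (S K : V → V → ℤ) : Prop where
  val : ∀ i j, S i j = 0 ∨ S i j = 1 ∨ S i j = -1
  symm : ∀ i j, S i j = S j i
  diag : ∀ i, S i i ≠ 1
  kv : ∀ i j, K i j = 0 ∨ K i j = 1
  ks : ∀ i j, K i j = K j i
  kd : ∀ i, K i i = 0
  disj : ∀ i j, K i j ≠ 0 → S i j = 0
  deg : ∀ i, ∑ j, (S i j ^ 2 + 2 * K i j) = (ρ : ℤ)

/-- weights of the graph on `V × Bool` -/
noncomputable def pw {V : Type} (S K : V → V → ℤ) (p q : V × Bool) : ℝ :=
  K p.1 q.1 + ((S p.1 q.1 : ℝ) ^ 2 + sg p.2 * sg q.2 * S p.1 q.1) / 2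

theorem PD.nw {V : Type} [Fintype V] {ρ : ℕ} {S K : V → V → ℤ}
    (h : PD V ρ S K) (a : V → ℝ) (ha : ∀ i, a i ≠ 0) (hSa : ∀ i, ∑ j, (S i j : ℝ) * a j = 0)
    (hS : ∀ d : V → ℝ, (∀ i, ∑ j, (S i j : ℝ) * d j = 0) → ∃ c : ℝ, ∀ i, d i = c * a i)
    (hB : ∀ s : V → ℝ, (∀ i, ∑ j, ((S i j : ℝ) ^ 2 + 2 * K i j) * s j = 0) → ∀ i, s i = 0) :
    NW (V × Bool) ρ (pw S K) (fun p => sg p.2 * a p.1) := by
  have hsg : ∀ s, sg s = 1 ∨ sg s = -1 := by
    intro s
    cases s <;> simp [sg]
  have sgf : sg false = 1 := by simp [sg]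
  have sgt : sg true = -1 := by simp [sg]
  have hE : ∀ (y : V × Bool → ℝ) (k : V) (s : Bool),
      ∑ q, pw S K (k, s) q * y q =
        (∑ l, ((S k l : ℝ) ^ 2 + 2 * K k l) * (y (l, false) + y (l, true))) / 2 +
        sg s * (∑ l, (S k l : ℝ) * (y (l, false) - y (l, true))) / 2 := by
    intro y k s
    rw [sum_db, Finset.mul_sum, Finset.sum_div, Finset.sum_div, ← Finset.sum_add_distrib]
    refine Finset.sum_congr rfl fun l _ => ?_
    simp only [pw, sgf, sgt]
    ring
  have hdeg : ∀ p, ∑ w, pw S K p w = ρ := by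
    rintro ⟨k, s⟩
    have h1 := hE (fun _ => 1) k s
    simp only [mul_one] at h1
    rw [h1]
    have h2 : ∑ l, ((S k l : ℝ) ^ 2 + 2 * K k l) = (ρ : ℝ) := by
      have := h.deg k
      exact_mod_cast this
    simp only [sub_self, mul_zero, Finset.sum_const_zero, zero_div, add_zero]
    rw [← Finset.sum_mul, h2]
    norm_num
  refine ⟨?_, ?_, ?_, hdeg, ?_, ?_, ?_⟩
  · rintro ⟨i, s⟩ ⟨j, t⟩
    simp only [pw]
    have h1 := h.val i j
    have h2 := h.kv i j
    have h3 := h.disj i j
    rcases h2 with e2 | e2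
    · rw [e2]
      rcases h1 with e1 | e1 | e1 <;> rw [e1] <;> rcases hsg s with e3 | e3 <;>
        rcases hsg t with e4 | e4 <;> rw [e3, e4] <;> norm_num
    · rw [h3 (by rw [e2]; norm_num), e2]
      norm_num
  · intro v w
    simp only [pw]
    rw [h.ks v.1 w.1, h.symm v.1 w.1]
    ring
  · rintro ⟨i, s⟩
    simp only [pw, h.kd i]
    have h1 := h.val i i
    have h2 := h.diag i
    rcases h1 with e1 | e1 | e1
    · rw [e1]; norm_num
    · exact absurd e1 h2
    · rw [e1]
      rcases hsg s with e3 | e3 <;> rw [e3] <;> norm_num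
  · rintro ⟨i, s⟩
    simp only
    rcases hsg s with e3 | e3 <;> rw [e3] <;> simpa using ha i
  · rintro ⟨k, s⟩
    rw [hE]
    simp only [sgf, sgt]
    have e1 : ∑ l, ((S k l : ℝ) ^ 2 + 2 * K k l) * (1 * a l + -1 * a l) = 0 := by
      refine Finset.sum_eq_zero fun l _ => ?_
      ring
    have e2 : ∑ l, (S k l : ℝ) * (1 * a l - -1 * a l) = 2 * ∑ l, (S k l : ℝ) * a l := by
      rw [Finset.mul_sum]
      refine Finset.sum_congr rfl fun l _ => ?_
      ring
    rw [e1, e2, hSa k]
    norm_num
  · intro y hy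
    have h1 : ∀ k, ∑ l, ((S k l : ℝ) ^ 2 + 2 * K k l) * (y (l, false) + y (l, true)) = 0 := by
      intro k
      have f1 := hy (k, false)
      have f2 := hy (k, true)
      rw [hE, sgf] at f1
      rw [hE, sgt] at f2
      linarith
    have h2 : ∀ k, ∑ l, (S k l : ℝ) * (y (l, false) - y (l, true)) = 0 := by
      intro k
      have f1 := hy (k, false)
      have f2 := hy (k, true)
      rw [hE, sgf] at f1
      rw [hE, sgt] at f2
      linarith
    have h3 := hB (fun l => y (l, false) + y (l, true)) h1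
    obtain ⟨c, hc⟩ := hS (fun l => y (l, false) - y (l, true)) h2
    refine ⟨c / 2, ?_⟩
    rintro ⟨i, s⟩
    have f1 := h3 i
    have f2 := hc i
    cases s
    · rw [sgf]
      linarith
    · rw [sgt]
      linarith

/-- the order of the graph -/
theorem card_db (V : Type) [Fintype V] : Fintype.card (V × Bool) = 2 * Fintype.card V := by
  simp [Fintype.card_prod, mul_comm]

/-- the kernel of an integral matrix whose kernel modulo `2` is a line -/
theorem ker_line {V : Type} [Fintype V] [DecidableEq V] (S : V → V → ℤ) (z : V → ZMod 2) (q : V)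
    (hzq : z q ≠ 0)
    (hz : ∀ v : V → ZMod 2, (∀ i, ∑ j, (S i j : ZMod 2) * v j = 0) → v = 0 ∨ v = z)
    (a : V → ℤ) (haq : a q ≠ 0) (hSa : ∀ i, ∑ j, S i j * a j = 0)
    (d : V → ℝ) (hd : ∀ i, ∑ j, (S i j : ℝ) * d j = 0) : ∃ c : ℝ, ∀ i, d i = c * a i := by
  have haq' : (a q : ℝ) ≠ 0 := by exact_mod_cast haq
  refine ⟨d q / a q, ?_⟩
  have key := Pool.Agent.TH417.Nut.real_zero (R := Option V) (J := V)
    (fun r j => match r with | some i => S i j | none => if j = q then 1 else 0) (by
      intro v hv x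
      have h1 : ∀ i, ∑ j, (S i j : ZMod 2) * (v j : ZMod 2) = 0 := by
        intro i
        have := hv (some i)
        simp only at this
        have h2 : ((∑ j, S i j * v j : ℤ) : ZMod 2) = 0 := by rw [this]; simp
        push_cast at h2
        exact h2
      have h3 : v q = 0 := by
        have := hv none
        simpa using this
      refine (ZMod.intCast_zmod_eq_zero_iff_dvd (v x) 2).1 ?_
      rcases hz (fun j => (v j : ZMod 2)) h1 with h | h
      · exact congrFun h x
      · exfalso
        apply hzq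
        rw [← congrFun h q, h3]
        simp) (fun i => d i - d q / a q * a i) (by
      rintro (_ | i)
      · simp only [Int.cast_ite, Int.cast_one, Int.cast_zero, ite_mul, one_mul, zero_mul,
          Finset.sum_ite_eq', Finset.mem_univ, if_true]
        field_simp
        ring
      · simp only
        have e1 : ∑ j, (S i j : ℝ) * (d j - d q / a q * a j) =
            ∑ j, (S i j : ℝ) * d j - d q / a q * ∑ j, (S i j : ℝ) * a j := by
          rw [Finset.mul_sum, ← Finset.sum_sub_distrib]
          refine Finset.sum_congr rfl fun j _ => ?_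
          ring
        have e2 : ∑ j, (S i j : ℝ) * a j = 0 := by exact_mod_cast hSa i
        rw [e1, hd i, e2]
        ring)
  intro i
  have := key i
  linarith

end Pool.Agent.J6H28.Nut
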