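import Pool.Agent.J6H28.Nut.Pairs

/-!
# The switching argument

`B = S ^ 2 + 2 K` (entrywise square) is congruent to `S` modulo `2`.  If the kernel of `S` modulo `2`
is a line, then a suitable switching of `K` cannot keep `B` singular.
-/

set_option autoImplicit false

namespace Pool.Agent.J6H28.Nut

open Finset Pool.Agent.TH296.Nut

variable {V : Type} [Fintype V] [DecidableEq V]

set_option linter.unusedSectionVars false

/-- if `B` is singular over the reals, there is an integer kernel vector which is `z` modulo `2` -/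
theorem odd_vec (S B : V → V → ℤ) (hBS : ∀ i j, (B i j : ZMod 2) = S i j)
    (z : V → ZMod 2)
    (hz : ∀ v : V → ZMod 2, (∀ i, ∑ j, (S i j : ZMod 2) * v j = 0) → v = 0 ∨ v = z)
    (s : V → ℝ) (hs : ∀ i, ∑ j, (B i j : ℝ) * s j = 0) (i0 : V) (hi0 : s i0 ≠ 0) :
    ∃ y : V → ℤ, (∀ i, ∑ j, B i j * y j = 0) ∧ ∀ i, (y i : ZMod 2) = z i := by
  by_contra hcon
  push Not at hcon
  apply hi0
  refine Pool.Agent.TH417.Nut.real_zero (R := V) (J := V) B ?_ s hs i0
  intro v hv x
  have h1 : ∀ i, ∑ j, (S i j : ZMod 2) * (v j : ZMod 2) = 0 := by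
    intro i
    have h2 : ((∑ j, B i j * v j : ℤ) : ZMod 2) = 0 := by rw [hv i]; simp
    push_cast at h2
    rw [← h2]
    refine Finset.sum_congr rfl fun j _ => ?_
    rw [hBS]
  refine (ZMod.intCast_zmod_eq_zero_iff_dvd (v x) 2).1 ?_
  rcases hz (fun j => (v j : ZMod 2)) h1 with h | h
  · exact congrFun h x
  · obtain ⟨i, hi⟩ := hcon v hv
    exact absurd (congrFun h i) hi

/-- the indicator of a point -/
def ind (A : V) (i : V) : ℤ := if i = A then 1 else 0

theorem sum_ind (A : V) (f : V → ℤ) : ∑ j, ind A j * f j = f A := by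
  simp [ind]

/-- the change of the bulk -/
def sw (A B C D : V) (i j : V) : ℤ :=
  (ind A i - ind D i) * (ind B j - ind C j) + (ind B i - ind C i) * (ind A j - ind D j)

theorem sum_sw (A B C D : V) (f : V → ℤ) (i : V) :
    ∑ j, sw A B C D i j * f j =
      (ind A i - ind D i) * (f B - f C) + (ind B i - ind C i) * (f A - f D) := by
  have h : ∀ j, sw A B C D i j * f j =
      (ind A i - ind D i) * (ind B j * f j) - (ind A i - ind D i) * (ind C j * f j) +
      ((ind B i - ind C i) * (ind A j * f j) - (ind B i - ind C i) * (ind D j * f j)) := by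
    intro j
    unfold sw
    ring
  rw [Finset.sum_congr rfl fun j _ => h j, Finset.sum_add_distrib, Finset.sum_sub_distrib,
    Finset.sum_sub_distrib, ← Finset.mul_sum, ← Finset.mul_sum, ← Finset.mul_sum,
    ← Finset.mul_sum, sum_ind, sum_ind, sum_ind, sum_ind]
  ring

theorem no_two (S B : V → V → ℤ) (hBS : ∀ i j, (B i j : ZMod 2) = S i j)
    (hBs : ∀ i j, B i j = B j i)
    (z : V → ZMod 2)
    (hz : ∀ v : V → ZMod 2, (∀ i, ∑ j, (S i j : ZMod 2) * v j = 0) → v = 0 ∨ v = z)
    (A B' C D : V) (hAD : z A + z D = 1) (hBC : z B' + z C = 1)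
    (x0 : V → ZMod 2) (hx0 : ∀ i, ∑ j, (S i j : ZMod 2) * x0 j =
      ((ind A i + ind B' i + ind C i + ind D i : ℤ) : ZMod 2))
    (hx : x0 A + x0 B' + x0 C + x0 D = 0)
    (y : V → ℤ) (hy : ∀ i, ∑ j, B i j * y j = 0) (hyz : ∀ i, (y i : ZMod 2) = z i)
    (y' : V → ℤ) (hy' : ∀ i, ∑ j, (B i j + 2 * sw A B' C D i j) * y' j = 0)
    (hyz' : ∀ i, (y' i : ZMod 2) = z i) : False := by
  -- w
  have hw : ∃ w : V → ℤ, ∀ i, y' i = y i + 2 * w i := by
    have : ∀ i, ∃ c : ℤ, y' i = y i + 2 * c := by
      intro i
      have h1 : ((y' i - y i : ℤ) : ZMod 2) = 0 := by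
        push_cast
        rw [hyz, hyz', sub_self]
      obtain ⟨c, hc⟩ := (ZMod.intCast_zmod_eq_zero_iff_dvd (y' i - y i) 2).1 h1
      exact ⟨c, by push_cast at hc; linarith⟩
    choose w hw using this
    exact ⟨w, hw⟩
  obtain ⟨w, hw⟩ := hw
  have h1 : ∀ i, ∑ j, B i j * y' j =
      -2 * ((ind A i - ind D i) * (y' B' - y' C) + (ind B' i - ind C i) * (y' A - y' D)) := by
    intro i
    have h2 := hy' i
    have h3 : ∑ j, (B i j + 2 * sw A B' C D i j) * y' j =
        ∑ j, B i j * y' j + 2 * ∑ j, sw A B' C D i j * y' j := by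
      rw [Finset.mul_sum, ← Finset.sum_add_distrib]
      refine Finset.sum_congr rfl fun j _ => ?_
      ring
    rw [h3, sum_sw] at h2
    linarith
  -- dot product with y
  have h2 : ∑ i, y i * ∑ j, B i j * y' j = 0 := by
    have e1 : ∑ i, y i * ∑ j, B i j * y' j = ∑ j, y' j * ∑ i, B j i * y i := by
      simp only [Finset.mul_sum]
      rw [Finset.sum_comm]
      refine Finset.sum_congr rfl fun j _ => Finset.sum_congr rfl fun i _ => ?_
      rw [hBs i j]
      ring
    rw [e1]
    refine Finset.sum_eq_zero fun j _ => ?_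
    rw [hy j, mul_zero]
  have h3 : (y A - y D) * (y' B' - y' C) + (y B' - y C) * (y' A - y' D) = 0 := by
    have e1 : ∀ i, y i * ∑ j, B i j * y' j =
        -2 * ((y' B' - y' C) * (ind A i * y i) - (y' B' - y' C) * (ind D i * y i) +
          ((y' A - y' D) * (ind B' i * y i) - (y' A - y' D) * (ind C i * y i))) := by
      intro i
      rw [h1 i]
      ring
    rw [Finset.sum_congr rfl fun i _ => e1 i, ← Finset.mul_sum, Finset.sum_add_distrib,
      Finset.sum_sub_distrib, Finset.sum_sub_distrib, ← Finset.mul_sum, ← Finset.mul_sum,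
      ← Finset.mul_sum, ← Finset.mul_sum, sum_ind, sum_ind, sum_ind, sum_ind] at h2
    linarith
  -- B w
  have h4 : ∀ i, ∑ j, B i j * w j =
      -((ind A i - ind D i) * (y' B' - y' C) + (ind B' i - ind C i) * (y' A - y' D)) := by
    intro i
    have e1 : ∑ j, B i j * y' j = ∑ j, B i j * y j + 2 * ∑ j, B i j * w j := by
      rw [Finset.mul_sum, ← Finset.sum_add_distrib]
      refine Finset.sum_congr rfl fun j _ => ?_
      rw [hw j]
      ring
    rw [h1 i, hy i] at e1
    linarith
  -- parities
  have p1 : ((y A - y D : ℤ) : ZMod 2) = 1 := by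
    push_cast
    rw [hyz, hyz, sub_eq_add_neg, ZMod.neg_eq_self_mod_two, hAD]
  have p2 : ((y B' - y C : ℤ) : ZMod 2) = 1 := by
    push_cast
    rw [hyz, hyz, sub_eq_add_neg, ZMod.neg_eq_self_mod_two, hBC]
  have p1' : ((y' A - y' D : ℤ) : ZMod 2) = 1 := by
    push_cast
    rw [hyz', hyz', sub_eq_add_neg, ZMod.neg_eq_self_mod_two, hAD]
  have p2' : ((y' B' - y' C : ℤ) : ZMod 2) = 1 := by
    push_cast
    rw [hyz', hyz', sub_eq_add_neg, ZMod.neg_eq_self_mod_two, hBC]
  have h5 : (y A - y D) * (y B' - y C) + (y A - y D) * (w B' - w C) +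
      (y B' - y C) * (w A - w D) = 0 := by
    have e := h3
    rw [hw A, hw B', hw C, hw D] at e
    nlinarith [e]
  have h6 : ((w A : ZMod 2) + w B' + w C + w D) = 1 := by
    have e : (((y A - y D) * (y B' - y C) + (y A - y D) * (w B' - w C) +
      (y B' - y C) * (w A - w D) : ℤ) : ZMod 2) = 0 := by rw [h5]; simp
    rw [Int.cast_add, Int.cast_add, Int.cast_mul, Int.cast_mul, Int.cast_mul, p1, p2] at e
    push_cast at e
    simp only [sub_eq_add_neg, ZMod.neg_eq_self_mod_two, one_mul] at e
    have e2 : (w A : ZMod 2) + w B' + w C + w D =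
        (1 + (w B' + w C) + (w A + w D)) + 1 - 2 := by ring
    rw [e2, e]
    decide
  have h7 : ∀ i, ∑ j, (S i j : ZMod 2) * (w j : ZMod 2) =
      ((ind A i + ind B' i + ind C i + ind D i : ℤ) : ZMod 2) := by
    intro i
    have e : ((∑ j, B i j * w j : ℤ) : ZMod 2) =
      ((-((ind A i - ind D i) * (y' B' - y' C) + (ind B' i - ind C i) * (y' A - y' D)) : ℤ) :
        ZMod 2) := by rw [h4 i]
    rw [Int.cast_neg, Int.cast_add, Int.cast_mul, Int.cast_mul, p1', p2'] at e
    push_cast at e
    simp only [sub_eq_add_neg, ZMod.neg_eq_self_mod_two, mul_one] at e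
    push_cast
    simp only [hBS] at e
    rw [e]
    ring
  -- difference
  have h8 : ∀ i, ∑ j, (S i j : ZMod 2) * ((w j : ZMod 2) + x0 j) = 0 := by
    intro i
    have e : ∑ j, (S i j : ZMod 2) * ((w j : ZMod 2) + x0 j) =
      ∑ j, (S i j : ZMod 2) * (w j : ZMod 2) + ∑ j, (S i j : ZMod 2) * x0 j := by
      rw [← Finset.sum_add_distrib]
      refine Finset.sum_congr rfl fun j _ => ?_
      ring
    rw [e, h7, hx0, ← two_mul]
    have : (2 : ZMod 2) = 0 := by decide
    rw [this, zero_mul]
  have h9 : (w A : ZMod 2) + w B' + w C + w D + (x0 A + x0 B' + x0 C + x0 D) = 0 := by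
    rcases hz _ h8 with h | h
    · have a1 := congrFun h A
      have a2 := congrFun h B'
      have a3 := congrFun h C
      have a4 := congrFun h D
      simp only [Pi.zero_apply] at a1 a2 a3 a4
      linear_combination a1 + a2 + a3 + a4
    · have a1 := congrFun h A
      have a2 := congrFun h B'
      have a3 := congrFun h C
      have a4 := congrFun h D
      have : (2 : ZMod 2) = 0 := by decide
      linear_combination a1 + a2 + a3 + a4 + hAD + hBC + this
  rw [hx, add_zero, h6] at h9
  exact one_ne_zero h9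

theorem even_sq (S : V → V → ℤ) (val : ∀ i j, S i j = 0 ∨ S i j = 1 ∨ S i j = -1)
    (K : V → V → ℤ) (i j : V) : ((S i j ^ 2 + 2 * K i j : ℤ) : ZMod 2) = S i j := by
  have h2 : (2 : ZMod 2) = 0 := by decide
  push_cast
  rw [h2, zero_mul, add_zero]
  rcases val i j with e | e | e <;> rw [e] <;> simp

/-- The main criterion: one of `K` and its switching gives a nut graph. -/
theorem PD.exists_nut {ρ : ℕ} {S K : V → V → ℤ} (h : PD V ρ S K)
    (z : V → ZMod 2)
    (hz : ∀ v : V → ZMod 2, (∀ i, ∑ j, (S i j : ZMod 2) * v j = 0) → v = 0 ∨ v = z)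
    (a : V → ℤ) (ha : ∀ i, a i ≠ 0) (hSa : ∀ i, ∑ j, S i j * a j = 0)
    (A B C D : V) (hAB : A ≠ B) (hAC : A ≠ C) (hAD' : A ≠ D) (hBC' : B ≠ C) (hBD : B ≠ D)
    (hCD : C ≠ D) (hAD : z A + z D = 1) (hBC : z B + z C = 1)
    (x0 : V → ZMod 2) (hx0 : ∀ i, ∑ j, (S i j : ZMod 2) * x0 j =
      ((ind A i + ind B i + ind C i + ind D i : ℤ) : ZMod 2))
    (hx : x0 A + x0 B + x0 C + x0 D = 0)
    (kAC : K A C = 1) (kBD : K B D = 1) (kAB : K A B = 0) (kCD : K C D = 0)
    (sAB : S A B = 0) (sCD : S C D = 0) :
    2 * Fintype.card V ∈ nutOrders ρ := by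
  have hcard : 2 ≤ Fintype.card (V × Bool) := by
    rw [card_db]
    have : 0 < Fintype.card V := Fintype.card_pos_iff.2 ⟨A⟩
    omega
  have hq : ∃ q : V, z q ≠ 0 := by
    by_contra hcon
    push Not at hcon
    rw [hcon A, hcon D] at hAD
    exact absurd hAD (by decide)
  obtain ⟨q, hq⟩ := hq
  have hline := ker_line S z q hq hz a (ha q) hSa
  have haR : ∀ i, (a i : ℝ) ≠ 0 := fun i => by exact_mod_cast ha i
  have hSaR : ∀ i, ∑ j, (S i j : ℝ) * (a j : ℝ) = 0 := by
    intro i
    exact_mod_cast hSa i
  -- the switched bulk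
  set K' : V → V → ℤ := fun i j => K i j + sw A B C D i j with hK'
  have hK'v : ∀ i j, (K' i j = K i j) ∨ (K i j = 0 ∧ K' i j = 1 ∧ S i j = 0) ∨
      (K i j = 1 ∧ K' i j = 0) := by
    intro i j
    have kCA : K C A = 1 := by rw [h.ks]; exact kAC
    have kDB : K D B = 1 := by rw [h.ks]; exact kBD
    have kBA : K B A = 0 := by rw [h.ks]; exact kAB
    have kDC : K D C = 0 := by rw [h.ks]; exact kCD
    have sBA : S B A = 0 := by rw [h.symm]; exact sAB
    have sDC : S D C = 0 := by rw [h.symm]; exact sCD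
    simp only [hK', sw, ind]
    by_cases i1 : i = A
    · subst i1
      simp only [hAB, hAC, hAD', if_true, if_false]
      by_cases j1 : j = B
      · subst j1
        right; left
        simp [hBC', kAB, sAB, hAB.symm, hBD]
      · by_cases j2 : j = C
        · subst j2
          right; right
          simp [kAC, hBC'.symm]
        · left
          simp [j1, j2]
    · by_cases i2 : i = D
      · subst i2
        simp only [hAD'.symm, hBD.symm, hCD.symm, if_true, if_false]
        by_cases j1 : j = B
        · subst j1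
          right; right
          simp [kDB, hBC']
        · by_cases j2 : j = C
          · subst j2
            right; left
            simp [kDC, sDC, hBC'.symm]
          · left
            simp [j1, j2]
      · by_cases i3 : i = B
        · subst i3
          simp only [i1, i2, hBC', if_true, if_false]
          by_cases j1 : j = A
          · subst j1
            right; left
            simp [kBA, sBA, hAD']
          · by_cases j2 : j = D
            · subst j2
              right; right
              simp [kBD, j1]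
            · left
              simp [j1, j2]
        · by_cases i4 : i = C
          · subst i4
            simp only [i1, i2, i3, if_true, if_false]
            by_cases j1 : j = A
            · subst j1
              right; right
              simp [kCA, hAD']
            · by_cases j2 : j = D
              · subst j2
                right; left
                simp [kCD, sCD, j1]
              · left
                simp [j1, j2]
          · left
            simp [i1, i2, i3, i4]
  have hs1 : ∀ i, ∑ j, sw A B C D i j = 0 := by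
    intro i
    have := sum_sw A B C D (fun _ => 1) i
    simpa using this
  have h' : PD V ρ S K' := by
    refine ⟨h.val, h.symm, h.diag, ?_, ?_, ?_, ?_, ?_⟩
    · intro i j
      rcases hK'v i j with e | e | e
      · rw [e]; exact h.kv i j
      · exact Or.inr e.2.1
      · exact Or.inl e.2
    · intro i j
      simp only [hK', sw]
      rw [h.ks i j]
      ring
    · intro i
      have h0 := h.kd i
      rcases hK'v i i with e | e | e
      · rw [e]; exact h0
      · exfalso
        have e2 := e.2.1
        simp only [hK', sw, h0, ind] at e2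
        by_cases i1 : i = A
        · subst i1
          simp [hAB, hAC, hAD'] at e2
        · by_cases i2 : i = D
          · subst i2
            simp [hAD'.symm, hBD.symm, hCD.symm] at e2
          · simp [i1, i2] at e2
      · rw [h0] at e
        exact absurd e.1 (by norm_num)
    · intro i j hij
      rcases hK'v i j with e | e | e
      · rw [e] at hij; exact h.disj i j hij
      · exact e.2.2
      · exact absurd e.2 hij
    · intro i
      rw [← h.deg i]
      have e : ∑ j, (S i j ^ 2 + 2 * K' i j) = ∑ j, (S i j ^ 2 + 2 * K i j) +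
          2 * ∑ j, sw A B C D i j := by
        rw [Finset.mul_sum, ← Finset.sum_add_distrib]
        refine Finset.sum_congr rfl fun j _ => ?_
        simp only [hK']
        ring
      rw [e, hs1 i]
      ring
  by_contra hcon
  rw [← card_db] at hcon
  have n1 : ¬ ∀ s : V → ℝ, (∀ i, ∑ j, ((S i j : ℝ) ^ 2 + 2 * K i j) * s j = 0) → ∀ i, s i = 0 :=
    fun hB => hcon ((h.nw (fun i => (a i : ℝ)) haR hSaR hline hB).mem hcard)
  have n2 : ¬ ∀ s : V → ℝ, (∀ i, ∑ j, ((S i j : ℝ) ^ 2 + 2 * K' i j) * s j = 0) → ∀ i, s i = 0 :=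
    fun hB => hcon ((h'.nw (fun i => (a i : ℝ)) haR hSaR hline hB).mem hcard)
  push Not at n1 n2
  obtain ⟨s, hs, i0, hi0⟩ := n1
  obtain ⟨s', hs', i0', hi0'⟩ := n2
  obtain ⟨y, hy, hyz⟩ := odd_vec S (fun i j => S i j ^ 2 + 2 * K i j) (even_sq S h.val K) z hz s
    (by intro i; rw [← hs i]; push_cast; rfl) i0 hi0
  obtain ⟨y', hy', hyz'⟩ := odd_vec S (fun i j => S i j ^ 2 + 2 * K' i j) (even_sq S h.val K') z hz
    s' (by intro i; rw [← hs' i]; push_cast; rfl) i0' hi0'
  refine no_two S (fun i j => S i j ^ 2 + 2 * K i j) (even_sq S h.val K) ?_ z hz A B C D hAD hBC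
    x0 hx0 hx y hy hyz y' ?_ hyz'
  · intro i j
    rw [h.symm i j, h.ks i j]
  · intro i
    rw [← hy' i]
    refine Finset.sum_congr rfl fun j _ => ?_
    simp only [hK']
    ring

end Pool.Agent.J6H28.Nut
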